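import Pool.Agent.ZCP.Sys

/-!
# Any two points lie in systems which meet
-/

set_option autoImplicit false

noncomputable section

namespace Pool.Agent.ZC

open Polynomial WeierstrassCurve
open scoped Classical

theorem meet (ι : AlgebraicClosure ℚ →+* PadicAlgCl 2) (u : AlgebraicClosure ℚ)
    (hu1 : u ≠ 1) (hu : ‖ι (1 - u)‖ < 1 / 256) (E' : WeierstrassCurve (AlgebraicClosure ℚ))
    [E'.IsElliptic] (P' : E'.toAffine.Point) :
    ∃ F : IntermediateField ℚ (AlgebraicClosure ℚ), FiniteDimensional ℚ F ∧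
      IntermediateField.adjoin ℚ {u} ≤ F ∧
      {j : F | ∃ (E : WeierstrassCurve F) (_ : E.IsElliptic) (R : (E⁄F).toAffine.Point)
        (K' : IntermediateField ℚ (AlgebraicClosure ℚ))
        (G' : (E : WeierstrassCurve (AlgebraicClosure ℚ)) → AddSubgroup E.toAffine.Point),
        E.j = j ∧
        ¬ IsOfFinAddOrder
          (Affine.Point.map (W' := E) (Algebra.ofId F (AlgebraicClosure ℚ)) R) ∧
        K' ≤ F ∧ IsSystem K' G' ∧ P' ∈ G' E' ∧
        Affine.Point.map (W' := E) (Algebra.ofId F (AlgebraicClosure ℚ)) R ∈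
          satG u (E⁄(AlgebraicClosure ℚ)) ∧
        Affine.Point.map (W' := E) (Algebra.ofId F (AlgebraicClosure ℚ)) R ∈
          G' (E⁄(AlgebraicClosure ℚ))}.Infinite := by
  obtain ⟨l, hl0, hl1, hl, -, φ, hφ, hL⟩ := exists_leg2 ι E'
  obtain ⟨Q, rfl⟩ := hφ.2 P'
  obtain ⟨F₀, hF₀, H⟩ := seqv ι l hl hl1 Q
  have halg : Algebra.IsAlgebraic ℚ (AlgebraicClosure ℚ) := AlgebraicClosure.isAlgebraic ℚ
  have hfu : FiniteDimensional ℚ (IntermediateField.adjoin ℚ {u}) :=
    IntermediateField.adjoin.finiteDimensional (halg.isAlgebraic u).isIntegral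
  refine ⟨IntermediateField.adjoin ℚ {u} ⊔ F₀, IntermediateField.finiteDimensional_sup _ _,
    le_sup_left, ?_⟩
  set F := IntermediateField.adjoin ℚ {u} ⊔ F₀ with hF
  have huF : u ∈ F := (le_sup_left : _ ≤ F) (IntermediateField.subset_adjoin ℚ {u} rfl)
  intro hfin
  obtain ⟨C, hC⟩ := (hfin.image fun j => ‖ι (algebraMap F (AlgebraicClosure ℚ) j)‖).bddAbove
  obtain ⟨v, hvF, hv0, hv, n, hn, hnQ⟩ := H (1 / (256 * (1 + |C|))) (by positivity)
  have hC0 : 0 ≤ |C| := abs_nonneg C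
  have hv256 : ‖ι v‖ < 1 / 256 := by
    refine hv.trans_le ?_
    rw [div_le_div_iff₀ (by positivity) (by positivity)]
    linarith
  have hv1 : ‖ι v‖ < 1 := hv256.trans (by norm_num)
  have hvn : 0 < ‖ι v‖ := by
    rw [norm_pos_iff, Ne, map_eq_zero]
    exact hv0
  have hvF' : v ∈ F := (le_sup_right : F₀ ≤ F) hvF
  obtain ⟨E, hE, R, hj, hR, hRu, hRv⟩ := pair_one ι hu1 hu huF hvF' hv0 hv1
  have hsys : IsSystem (IntermediateField.adjoin ℚ {1 - v}) (satG (1 - v)) := by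
    refine satG_system ι ?_ ?_
    · intro e
      exact hv0 (by linear_combination -e)
    · rw [sub_sub_cancel]
      exact hv256
  have h := hC ⟨E.j, ⟨E, hE, R, _, _, rfl, hR, ?_, hsys, ?_, closure_le_satG hRu, ?_⟩, rfl⟩
  · change ‖ι (algebraMap F (AlgebraicClosure ℚ) E.j)‖ ≤ C at h
    rw [hj] at h
    have h1 : (256 * (1 + |C|)) * ‖ι v‖ < 1 := by
      rw [lt_div_iff₀ (by positivity)] at hv
      linarith
    have h2 : 1 / 256 / ‖ι v‖ ^ 2 > |C| := by
      rw [gt_iff_lt, lt_div_iff₀ (by positivity)]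
      have h3 : ((256 * (1 + |C|)) * ‖ι v‖) ^ 2 < 1 := by
        rw [sq_lt_one_iff₀ (by positivity)]
        exact h1
      nlinarith [sq_nonneg (‖ι v‖), sq_nonneg |C|, mul_nonneg hC0 (sq_nonneg ‖ι v‖)]
    exact absurd (h.trans (le_abs_self C)) (not_le.2 h2)
  · refine IntermediateField.adjoin_le_iff.2 ?_
    rintro _ rfl
    exact sub_mem (one_mem F) hvF'
  · refine ⟨n, hn, closure_one_sub ?_⟩
    rw [← map_nsmul]
    exact closure_image hL hnQ
  · exact ⟨2, two_pos, closure_one_sub hRv⟩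

theorem two_points (E₀ : WeierstrassCurve (AlgebraicClosure ℚ)) [E₀.IsElliptic]
    (P₀ : E₀.toAffine.Point) :
    ∃ (K : IntermediateField ℚ (AlgebraicClosure ℚ))
      (G : (E : WeierstrassCurve (AlgebraicClosure ℚ)) → AddSubgroup E.toAffine.Point),
      IsSystem K G ∧ P₀ ∈ G E₀ ∧
      ∀ (E' : WeierstrassCurve (AlgebraicClosure ℚ)) [E'.IsElliptic] (P' : E'.toAffine.Point),
        ∃ F : IntermediateField ℚ (AlgebraicClosure ℚ), FiniteDimensional ℚ F ∧ K ≤ F ∧
          {j : F | ∃ (E : WeierstrassCurve F) (_ : E.IsElliptic) (R : (E⁄F).toAffine.Point)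
            (K' : IntermediateField ℚ (AlgebraicClosure ℚ))
            (G' : (E : WeierstrassCurve (AlgebraicClosure ℚ)) → AddSubgroup E.toAffine.Point),
            E.j = j ∧
            ¬ IsOfFinAddOrder
              (Affine.Point.map (W' := E) (Algebra.ofId F (AlgebraicClosure ℚ)) R) ∧
            K' ≤ F ∧ IsSystem K' G' ∧ P' ∈ G' E' ∧
            Affine.Point.map (W' := E) (Algebra.ofId F (AlgebraicClosure ℚ)) R ∈
              G (E⁄(AlgebraicClosure ℚ)) ∧
            Affine.Point.map (W' := E) (Algebra.ofId F (AlgebraicClosure ℚ)) R ∈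
              G' (E⁄(AlgebraicClosure ℚ))}.Infinite := by
  obtain ⟨ι, -⟩ := exists_iota
  obtain ⟨l₀, hl0, hl1, hl, -, φ₀, hφ₀, hL₀⟩ := exists_leg2 ι E₀
  obtain ⟨Q₀, rfl⟩ := hφ₀.2 P₀
  obtain ⟨u, N, hu1, hu, hN, hQ⟩ := exists_start ι l₀ hl hl1 Q₀
  refine ⟨_, satG u, satG_system ι hu1 hu, ⟨N, hN, ?_⟩, ?_⟩
  · rw [← map_nsmul]
    exact closure_image hL₀ hQ
  · intro E' _ P'
    exact meet ι u hu1 hu E' P'

end Pool.Agent.ZC
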