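import Pool.Agent.ZCP.Pair
import Pool.Agent.ZCK.Final

/-!
# Every point is orthogonal to points of every system
-/

set_option autoImplicit false

noncomputable section

namespace Pool.Agent.ZC

open Polynomial WeierstrassCurve
open scoped Classical

/-- the point with abscissa `u`, as a rational point of the twist -/
theorem pair_one (ι : AlgebraicClosure ℚ →+* PadicAlgCl 2) {u : AlgebraicClosure ℚ}
    (hu1 : u ≠ 1) (hu : ‖ι (1 - u)‖ < 1 / 256) {F : IntermediateField ℚ (AlgebraicClosure ℚ)}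
    (huF : u ∈ F) {v : AlgebraicClosure ℚ} (hvF : v ∈ F) (hv0 : v ≠ 0) (hv : ‖ι v‖ < 1) :
    ∃ (E : WeierstrassCurve F) (_ : E.IsElliptic) (R : (E⁄F).toAffine.Point),
      ‖ι (algebraMap F (AlgebraicClosure ℚ) E.j)‖ = 1 / 256 / ‖ι v‖ ^ 2 ∧
      ¬ IsOfFinAddOrder
        (Affine.Point.map (W' := E) (Algebra.ofId F (AlgebraicClosure ℚ)) R) ∧
      Affine.Point.map (W' := E) (Algebra.ofId F (AlgebraicClosure ℚ)) R ∈
        AddSubgroup.closure (SetE (E⁄(AlgebraicClosure ℚ)) u) ∧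
      (2 : ℕ) • Affine.Point.map (W' := E) (Algebra.ofId F (AlgebraicClosure ℚ)) R ∈
        AddSubgroup.closure (SetE (E⁄(AlgebraicClosure ℚ)) v) := by
  have hun : ‖ι u‖ = 1 := by
    have e : ι u = 1 - ι (1 - u) := by rw [map_sub, map_one]; ring
    rw [e]
    refine (norm_sub_eq_of_lt ?_).trans norm_one
    rw [norm_one]
    exact hu.trans (by norm_num)
  have hu0 : u ≠ 0 := by
    rintro rfl
    rw [map_zero, norm_zero] at hun
    norm_num at hun
  have hbn : ‖ι (u * v)‖ < 1 := by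
    rw [map_mul, norm_mul, hun, one_mul]
    exact hv
  have hb0 : u * v ≠ 0 := mul_ne_zero hu0 hv0
  have hb1 : u * v ≠ 1 := by
    intro e
    rw [e, map_one, norm_one] at hbn
    exact lt_irrefl _ hbn
  have hv1 : v ≠ 1 := by
    rintro rfl
    rw [map_one, norm_one] at hv
    exact lt_irrefl _ hv
  have hd0 : (u - 1) * (1 - v) ≠ 0 := mul_ne_zero (sub_ne_zero.2 hu1) (sub_ne_zero.2 (Ne.symm hv1))
  obtain ⟨s, hs⟩ : ∃ s : AlgebraicClosure ℚ, s ^ 2 = (u - 1) * (1 - v) :=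
    IsAlgClosed.exists_pow_nat_eq _ (by norm_num)
  -- the elements of `F`
  obtain ⟨U, hU⟩ : ∃ U : F, algebraMap F (AlgebraicClosure ℚ) U = u := ⟨⟨u, huF⟩, rfl⟩
  obtain ⟨V, hV⟩ : ∃ V : F, algebraMap F (AlgebraicClosure ℚ) V = v := ⟨⟨v, hvF⟩, rfl⟩
  have hinj := (algebraMap F (AlgebraicClosure ℚ)).injective
  have hD0 : (U - 1) * (1 - V) ≠ 0 := by
    intro e
    apply hd0
    rw [← hU, ← hV, ← map_one (algebraMap F (AlgebraicClosure ℚ)), ← map_sub, ← map_sub,
      ← map_mul, e, map_zero]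
  have hB0 : U * V ≠ 0 := by
    intro e
    apply hb0
    rw [← hU, ← hV, ← map_mul, e, map_zero]
  have hB1 : U * V ≠ 1 := by
    intro e
    apply hb1
    rw [← hU, ← hV, ← map_mul, e, map_one]
  set D : F := (U - 1) * (1 - V) with hD
  have hell : (tw D (U * V)).IsElliptic := tw_ell hD0 hB0 hB1
  have hbase : (tw D (U * V))⁄(AlgebraicClosure ℚ) = tw ((u - 1) * (1 - v)) (u * v) := by
    rw [← hU, ← hV]
    ext <;> simp [tw, WeierstrassCurve.baseChange, hD]
  have hbaseF : (tw D (U * V))⁄F = tw D (U * V) := by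
    ext <;> simp [WeierstrassCurve.baseChange]
  have hRF : ((tw D (U * V))⁄F).toAffine.Nonsingular (D * U) (D ^ 2 * U) := by
    rw [hbaseF]
    exact tw_point hD0 hB0 hB1
  -- the isomorphism with the Legendre curve
  have hI : IsoChg (leg (u * v)) ((tw D (U * V))⁄(AlgebraicClosure ℚ)) s 0 0 0 := by
    rw [hbase]
    exact tw_chg hs hd0
  have hΔ : ((tw D (U * V))⁄(AlgebraicClosure ℚ)).Δ ≠ 0 := by
    rw [hbase, tw_Δ]
    exact mul_ne_zero (mul_ne_zero (by norm_num) (pow_ne_zero 6 hd0))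
      (pow_ne_zero 2 (mul_ne_zero hb0 (sub_ne_zero.2 hb1)))
  have hns := leg_nonsingular_uv hb0 hb1 hs
  obtain ⟨hy0, hinf, hv2⟩ := orthR ι hu1 hu hv0 hv hns
  have hmap : Affine.Point.map (W' := tw D (U * V)) (Algebra.ofId F (AlgebraicClosure ℚ))
      (.some (D * U) (D ^ 2 * U) hRF) = hI.hom hΔ (.some u (u * s) hns) := by
    show _ = hI.fn hΔ (.some u (u * s) hns)
    rw [hI.fn_some, Affine.Point.map_some, Affine.Point.some.injEq]
    refine ⟨?_, ?_⟩
    · show algebraMap F (AlgebraicClosure ℚ) (D * U) = _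
      rw [hD]
      simp only [map_mul, map_sub, map_one, hU, hV]
      rw [← hs]
      ring
    · show algebraMap F (AlgebraicClosure ℚ) (D ^ 2 * U) = _
      rw [hD]
      simp only [map_mul, map_pow, map_sub, map_one, hU, hV]
      rw [← hs]
      ring
  refine ⟨tw D (U * V), hell, .some (D * U) (D ^ 2 * U) hRF, ?_, ?_, ?_, ?_⟩
  · rw [tw_j hD0 hB0 hB1]
    have e : algebraMap F (AlgebraicClosure ℚ)
        (256 * ((U * V) ^ 2 - U * V + 1) ^ 3 / (U * V * (U * V - 1)) ^ 2) =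
        256 * ((u * v) ^ 2 - u * v + 1) ^ 3 / (u * v * (u * v - 1)) ^ 2 := by
      simp only [map_div₀, map_mul, map_pow, map_sub, map_add, map_one, map_ofNat, hU, hV]
    rw [e, norm_j ι hb0 hbn, map_mul, norm_mul, hun, one_mul]
  · rw [hmap]
    intro h
    rw [isOfFinAddOrder_iff_nsmul_eq_zero] at h
    obtain ⟨n, hn, h⟩ := h
    rw [← map_nsmul] at h
    have h1 := hI.fn_injective hΔ
      (show hI.fn hΔ (n • (.some u (u * s) hns)) = hI.fn hΔ 0 from h)
    exact hinf n (by exact_mod_cast hn.ne') (by rw [natCast_zsmul]; exact h1)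
  · rw [hmap]
    exact AddSubgroup.subset_closure (SetE.image (hI.lift hΔ) (map_zero (hI.hom hΔ))
      (mem_SetE_leg hb0 hb1 hns hy0))
  · rw [hmap, ← map_nsmul]
    have hle : AddSubgroup.closure (SetE (leg (u * v)) v) ≤
        (AddSubgroup.closure (SetE ((tw D (U * V))⁄(AlgebraicClosure ℚ)) v)).comap
          (hI.hom hΔ) := by
      rw [AddSubgroup.closure_le]
      intro b hb
      exact AddSubgroup.subset_closure (SetE.image (hI.lift hΔ) (map_zero (hI.hom hΔ)) hb)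
    exact hle hv2

/-- for every point `P'` there are points `R` of the system over one number field which are
orthogonal to `P'` -/
theorem pairs (ι : AlgebraicClosure ℚ →+* PadicAlgCl 2) (u : AlgebraicClosure ℚ)
    (hu1 : u ≠ 1) (hu : ‖ι (1 - u)‖ < 1 / 256) (E' : WeierstrassCurve (AlgebraicClosure ℚ))
    [E'.IsElliptic] (P' : E'.toAffine.Point) :
    ∃ F : IntermediateField ℚ (AlgebraicClosure ℚ), FiniteDimensional ℚ F ∧
      {j : F | ∃ (E : WeierstrassCurve F) (_ : E.IsElliptic) (R : (E⁄F).toAffine.Point),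
        E.j = j ∧
        ¬ IsOfFinAddOrder
          (Affine.Point.map (W' := E) (Algebra.ofId F (AlgebraicClosure ℚ)) R) ∧
        Affine.Point.map (W' := E) (Algebra.ofId F (AlgebraicClosure ℚ)) R ∈
          AddSubgroup.closure (SetE (E⁄(AlgebraicClosure ℚ)) u) ∧
        ∃ M : ℕ, 0 < M ∧ ∀ z : Z0N ![E', E⁄(AlgebraicClosure ℚ)],
          (∀ p ∈ z.support, (∃ a : ℤ, p 0 = a • P') ∧ ∃ a : ℤ, p 1 = a •
            Affine.Point.map (W' := E) (Algebra.ofId F (AlgebraicClosure ℚ)) R) →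
          z.sum (fun _ a => a) = 0 → (∀ i, z.sum (fun p a => a • p i) = 0) →
          M • z ∈ RatEqN ![E', E⁄(AlgebraicClosure ℚ)]}.Infinite := by
  obtain ⟨l, hl0, hl1, hl, -, φ, hφ, hL⟩ := exists_leg2 ι E'
  obtain ⟨Q, rfl⟩ := hφ.2 P'
  obtain ⟨F₀, hF₀, H⟩ := seqv ι l hl hl1 Q
  have halg : Algebra.IsAlgebraic ℚ (AlgebraicClosure ℚ) := AlgebraicClosure.isAlgebraic ℚ
  have hfu : FiniteDimensional ℚ (IntermediateField.adjoin ℚ {u}) :=
    IntermediateField.adjoin.finiteDimensional (halg.isAlgebraic u).isIntegral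
  refine ⟨IntermediateField.adjoin ℚ {u} ⊔ F₀, IntermediateField.finiteDimensional_sup _ _, ?_⟩
  set F := IntermediateField.adjoin ℚ {u} ⊔ F₀ with hF
  have huF : u ∈ F := (le_sup_left : _ ≤ F) (IntermediateField.subset_adjoin ℚ {u} rfl)
  intro hfin
  obtain ⟨C, hC⟩ : ∃ C : ℝ, ∀ j ∈ {j : F | ∃ (E : WeierstrassCurve F) (_ : E.IsElliptic)
        (R : (E⁄F).toAffine.Point), E.j = j ∧
        ¬ IsOfFinAddOrder
          (Affine.Point.map (W' := E) (Algebra.ofId F (AlgebraicClosure ℚ)) R) ∧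
        Affine.Point.map (W' := E) (Algebra.ofId F (AlgebraicClosure ℚ)) R ∈
          AddSubgroup.closure (SetE (E⁄(AlgebraicClosure ℚ)) u) ∧
        ∃ M : ℕ, 0 < M ∧ ∀ z : Z0N ![E', E⁄(AlgebraicClosure ℚ)],
          (∀ p ∈ z.support, (∃ a : ℤ, p 0 = a • φ Q) ∧ ∃ a : ℤ, p 1 = a •
            Affine.Point.map (W' := E) (Algebra.ofId F (AlgebraicClosure ℚ)) R) →
          z.sum (fun _ a => a) = 0 → (∀ i, z.sum (fun p a => a • p i) = 0) →
          M • z ∈ RatEqN ![E', E⁄(AlgebraicClosure ℚ)]},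
        ‖ι (algebraMap F (AlgebraicClosure ℚ) j)‖ ≤ C := by
    obtain ⟨C, hC⟩ := (hfin.image fun j => ‖ι (algebraMap F (AlgebraicClosure ℚ) j)‖).bddAbove
    exact ⟨C, fun j hj => hC (Set.mem_image_of_mem _ hj)⟩
  obtain ⟨v, hvF, hv0, hv, n, hn, hnQ⟩ := H (1 / (16 * (1 + |C|))) (by positivity)
  have hC0 : 0 ≤ |C| := abs_nonneg C
  have hv1 : ‖ι v‖ < 1 := by
    refine hv.trans_le ?_
    rw [div_le_one (by positivity)]
    linarith
  have hvn : 0 < ‖ι v‖ := by
    rw [norm_pos_iff, Ne, map_eq_zero]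
    exact hv0
  obtain ⟨E, hE, R, hj, hR, hRu, hRv⟩ := pair_one ι hu1 hu huF
    ((le_sup_right : F₀ ≤ F) hvF) hv0 hv1
  have himg : n • φ Q ∈ AddSubgroup.closure (SetE E' v) := by
    rw [← map_nsmul]
    have hle : AddSubgroup.closure (SetE (leg l) v) ≤
        (AddSubgroup.closure (SetE E' v)).comap φ := by
      rw [AddSubgroup.closure_le]
      intro b hb
      exact AddSubgroup.subset_closure (SetE.image hL (map_zero φ) hb)
    exact hle hnQ
  have hEQ : (E⁄(AlgebraicClosure ℚ)).IsElliptic :=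
    inferInstanceAs (E.map (algebraMap F (AlgebraicClosure ℚ))).IsElliptic
  have h := hC E.j ⟨E, hE, R, rfl, hR, hRu, 2 * (n * 2), by positivity,
    fun z hz hd hs => pair_cycle hEQ inferInstance himg hRv z hz hd hs⟩
  rw [hj] at h
  have h1 : (16 * (1 + |C|)) * ‖ι v‖ < 1 := by
    rw [lt_div_iff₀ (by positivity)] at hv
    linarith
  have h2 : 1 / 256 / ‖ι v‖ ^ 2 > |C| := by
    rw [gt_iff_lt, lt_div_iff₀ (by positivity)]
    have h3 : ((16 * (1 + |C|)) * ‖ι v‖) ^ 2 < 1 := by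
      rw [sq_lt_one_iff₀ (by positivity)]
      exact h1
    nlinarith [sq_nonneg (‖ι v‖), sq_nonneg |C|, mul_nonneg hC0 (sq_nonneg ‖ι v‖)]
  exact absurd (h.trans (le_abs_self C)) (not_le.2 h2)

end Pool.Agent.ZC
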