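import Pool.Agent.ZCP.Twist
import Pool.Agent.ZCN.Final

/-!
# Every point is orthogonal to points of every system
-/

set_option autoImplicit false

noncomputable section

namespace Pool.Agent.ZC

open Polynomial WeierstrassCurve
open scoped Classical

theorem leg_nonsingular_uv {u v s : AlgebraicClosure ℚ} (h0 : u * v ≠ 0) (h1 : u * v ≠ 1)
    (hs : s ^ 2 = (u - 1) * (1 - v)) : (leg (u * v)).toAffine.Nonsingular u (u * s) := by
  rw [(IsLeg.leg h0 h1).nonsingular]
  linear_combination u ^ 2 * hs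

theorem mem_smul {A : Type} [AddCommGroup A] {H : AddSubgroup A} {x y : A} {n : ℕ} {a : ℤ}
    (hx : n • x ∈ H) (e : y = a • x) : n • y ∈ H := by
  rw [e, smul_comm]
  exact H.zsmul_mem hx a

/-- the zero-cycles on the product of two curves which are supported on the multiples of two
points -/
theorem pair_cycle {E E' : WeierstrassCurve (AlgebraicClosure ℚ)} (hE : E.IsElliptic)
    (hE' : E'.IsElliptic)
    {v : AlgebraicClosure ℚ} {P' : E'.toAffine.Point} {R : E.toAffine.Point} {n m : ℕ}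
    (hP : n • P' ∈ AddSubgroup.closure (SetE E' v)) (hR : m • R ∈ AddSubgroup.closure (SetE E v))
    (z : Z0N ![E', E])
    (hz : ∀ p ∈ z.support, (∃ a : ℤ, p 0 = a • P') ∧ ∃ a : ℤ, p 1 = a • R)
    (hd : z.sum (fun _ a => a) = 0) (hs : ∀ i, z.sum (fun p a => a • p i) = 0) :
    (2 * (n * m)) • z ∈ RatEqN ![E', E] := by
  have h2 : ∀ i, (![E', E] i).IsElliptic := by
    intro i
    refine Fin.cases hE' (fun i => ?_) i
    refine Fin.cases hE (fun i => i.elim0) i
  have hp0 : ∀ p ∈ z.support, ∀ i, ![n, m] i • p i ∈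
      AddSubgroup.closure (SetE (![E', E] i) v) := by
    intro p hp i
    obtain ⟨⟨a, ha⟩, b, hb⟩ := hz p hp
    refine Fin.cases ?_ (fun i => ?_) i
    · exact mem_smul hP ha
    · refine Fin.cases ?_ (fun i => i.elim0) i
      exact mem_smul hR hb
  have key := cycleN ![E', E] (fun i x y => by
      have := h2 i
      exact two_add_left (![E', E] i) x y 0) (fun i => SetE (![E', E] i) v)
    (fun i j _ P hP Q hQ => SetE.sym hP hQ) ![n, m] z hp0 hd hs
  rwa [Fin.prod_univ_two] at key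

/-- the norm of the `j`-invariant -/
theorem norm_j (ι : AlgebraicClosure ℚ →+* PadicAlgCl 2) {b : AlgebraicClosure ℚ}
    (hb0 : b ≠ 0) (hb : ‖ι b‖ < 1) :
    ‖ι (256 * (b ^ 2 - b + 1) ^ 3 / (b * (b - 1)) ^ 2)‖ = 1 / 256 / ‖ι b‖ ^ 2 := by
  have hn : 0 < ‖ι b‖ := by
    rw [norm_pos_iff, Ne, map_eq_zero]
    exact hb0
  have e1 : ‖ι (b - 1)‖ = 1 := by
    rw [show b - 1 = -(1 - b) by ring, map_neg, norm_neg, map_sub, map_one]
    refine (norm_sub_eq_of_lt ?_).trans norm_one
    rw [norm_one]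
    exact hb
  have e2 : ‖ι (b ^ 2 - b + 1)‖ = 1 := by
    rw [show b ^ 2 - b + 1 = 1 - b * (1 - b) by ring, map_sub, map_one]
    refine (norm_sub_eq_of_lt ?_).trans norm_one
    rw [norm_one, map_mul, norm_mul]
    rw [show b - 1 = -(1 - b) by ring, map_neg, norm_neg] at e1
    rw [e1, mul_one]
    exact hb
  have e3 : ‖ι 256‖ = 1 / 256 := by
    rw [show (256 : AlgebraicClosure ℚ) = 2 ^ 8 by norm_num, map_pow, norm_pow, map_ofNat,
      two_norm]
    norm_num
  rw [map_div₀, norm_div, map_mul, norm_mul, map_pow, norm_pow, e2, e3, map_pow, norm_pow,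
    map_mul, norm_mul, e1]
  ring

end Pool.Agent.ZC
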