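import Pool.Agent.ZCP.Trans
import Pool.Agent.ZCInf.Final

/-!
# Abscissas which are 2-adically close to zero
-/

set_option autoImplicit false

noncomputable section

namespace Pool.Agent.ZC

open Polynomial WeierstrassCurve
open scoped Classical

theorem mul_smul_add {A : Type} [AddCommGroup A] {P T : A} {N : ℤ} (hP : N • P = 0)
    (hT : (2 : ℕ) • T = 0) : (2 * N) • (P + T) = 0 := by
  have hT' : (2 : ℤ) • T = 0 := by
    rw [show (2 : ℤ) = ((2 : ℕ) : ℤ) from rfl, natCast_zsmul]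
    exact hT
  rw [zsmul_add, mul_smul (2 : ℤ) N P, hP, zsmul_zero, zero_add, mul_comm, mul_smul, hT',
    zsmul_zero]

theorem coordK {K K' : Type} [Field K] [Field K'] (f : K →+* K') (l : K) (l' : K')
    (hl : f l = l') (x y : K) (h : (leg l).toAffine.Nonsingular x y)
    (h' : (leg l').toAffine.Nonsingular (f x) (f y)) (n : ℕ) :
    n • (Affine.Point.some (f x) (f y) h' : (leg l').toAffine.Point) = 0 ∨
      ∃ X Y H, n • (Affine.Point.some (f x) (f y) h' : (leg l').toAffine.Point) =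
        .some (f X) (f Y) H := by
  obtain ⟨T, hT⟩ := exists_map f l l' hl
  have hTP : T (.some x y h) = .some (f x) (f y) h' := by
    obtain ⟨h'', e⟩ := hT x y h
    rw [e]
  have e : n • (Affine.Point.some (f x) (f y) h' : (leg l').toAffine.Point) =
      T (n • .some x y h) := by rw [map_nsmul, hTP]
  rcases hQ : n • (Affine.Point.some x y h : (leg l).toAffine.Point) with _ | ⟨X, Y, H⟩
  · rw [hQ] at e
    exact Or.inl (e.trans (map_zero T))
  · rw [hQ] at e
    obtain ⟨h'', e'⟩ := hT X Y H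
    exact Or.inr ⟨X, Y, h'', e.trans e'⟩

/-- A point has a multiple in the span of the points of abscissa `v` for infinitely many `v` in one
number field, which are close to `0`. -/
theorem seqv (ι : AlgebraicClosure ℚ →+* PadicAlgCl 2) (l : AlgebraicClosure ℚ)
    (hl : ‖ι l‖ = 1) (h1 : l ≠ 1) (Q : (leg l).toAffine.Point) :
    ∃ F₀ : IntermediateField ℚ (AlgebraicClosure ℚ), FiniteDimensional ℚ F₀ ∧
      ∀ ε : ℝ, 0 < ε → ∃ v ∈ F₀, v ≠ 0 ∧ ‖ι v‖ < ε ∧ ∃ n : ℕ, 0 < n ∧
        n • Q ∈ AddSubgroup.closure (SetE (leg l) v) := by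
  have h0 : l ≠ 0 := by
    rintro rfl
    rw [map_zero, norm_zero] at hl
    norm_num at hl
  by_cases hQ : ∃ N : ℤ, N ≠ 0 ∧ N • Q = 0
  · obtain ⟨N, hN, hNQ⟩ := hQ
    refine ⟨⊥, inferInstance, fun ε hε => ?_⟩
    obtain ⟨n, hn⟩ : ∃ n : ℕ, (1 / 2 : ℝ) ^ n < ε := exists_pow_lt_of_lt_one hε (by norm_num)
    refine ⟨2 ^ n, ?_, pow_ne_zero n two_ne_zero, ?_, N.natAbs, Int.natAbs_pos.2 hN, ?_⟩
    · exact pow_mem (ofNat_mem _ 2) n
    · rw [map_pow, norm_pow, map_ofNat, two_norm]
      exact hn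
    · have e : N.natAbs • Q = 0 := by
        rcases Int.natAbs_eq N with h | h
        · rw [h, natCast_zsmul] at hNQ
          exact hNQ
        · rw [h, neg_smul, natCast_zsmul, neg_eq_zero] at hNQ
          exact hNQ
      rw [e]
      exact AddSubgroup.zero_mem _
  · push Not at hQ
    have hQ1 : Q ≠ 0 := by
      intro h
      have := hQ 1 one_ne_zero
      rw [one_smul] at this
      exact this h
    rcases hQ0 : Q with _ | ⟨x0, y0, hxy⟩
    · exact absurd hQ0 hQ1
    have halg : Algebra.IsAlgebraic ℚ (AlgebraicClosure ℚ) := AlgebraicClosure.isAlgebraic ℚ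
    set F₀ : IntermediateField ℚ (AlgebraicClosure ℚ) :=
      IntermediateField.adjoin ℚ {l, x0, y0} with hF
    have hlF : l ∈ F₀ := IntermediateField.subset_adjoin ℚ _ (by simp)
    have hxF : x0 ∈ F₀ := IntermediateField.subset_adjoin ℚ _ (by simp)
    have hyF : y0 ∈ F₀ := IntermediateField.subset_adjoin ℚ _ (by simp)
    refine ⟨F₀, ?_, fun ε hε => ?_⟩
    · exact IntermediateField.finiteDimensional_adjoin fun x _ => (halg.isAlgebraic x).isIntegral
    · have hl0' : (⟨l, hlF⟩ : F₀) ≠ 0 := fun h => h0 (congrArg Subtype.val h)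
      have hl1' : (⟨l, hlF⟩ : F₀) ≠ 1 := fun h => h1 (congrArg Subtype.val h)
      have hns : (leg (⟨l, hlF⟩ : F₀)).toAffine.Nonsingular ⟨x0, hxF⟩ ⟨y0, hyF⟩ := by
        rw [(IsLeg.leg hl0' hl1').nonsingular]
        have := ((IsLeg.leg h0 h1).nonsingular x0 y0).1 hxy
        exact Subtype.ext (by simpa using this)
      obtain ⟨n, hn, X, Y, h, hnQ, hX⟩ := exists_near ι h0 h1 Q hQ (1 / ε)
      have hXF : X ∈ F₀ := by
        rcases coordK (algebraMap F₀ (AlgebraicClosure ℚ)) ⟨l, hlF⟩ l rfl ⟨x0, hxF⟩ ⟨y0, hyF⟩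
          hns hxy n with e | ⟨x, y, h2, e⟩
        · rw [hQ0] at hnQ
          exact absurd (hnQ.symm.trans e) (by rintro ⟨⟩)
        · rw [hQ0] at hnQ
          have e2 := hnQ.symm.trans e
          rw [Affine.Point.some.injEq] at e2
          rw [e2.1]
          exact x.2
      have hXn : 0 < ‖ι X‖ := lt_trans (by positivity) hX
      have hX0 : X ≠ 0 := by
        rintro rfl
        rw [map_zero, norm_zero] at hXn
        exact lt_irrefl _ hXn
      obtain ⟨Y3, h3, e3⟩ := trans0 h0 h1 h hX0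
      have hT0 := two_tors h0 h1 (tors0 h0 h1)
      have h2 : (2 * n) • Q = (2 : ℕ) • (Affine.Point.some (l / X) Y3 h3 :
          (leg l).toAffine.Point) := by
        rw [← e3, nsmul_add, hT0, add_zero, ← hnQ, mul_comm, mul_nsmul]
      have hY3 : Y3 ≠ 0 := by
        rintro rfl
        rw [two_tors h0 h1 h3] at h2
        apply hQ ((2 * n : ℕ) : ℤ) (by exact_mod_cast (by omega : 2 * n ≠ 0))
        rw [natCast_zsmul]
        exact h2
      refine ⟨l / X, div_mem hlF hXF, div_ne_zero h0 hX0, ?_, 2 * n, by omega, ?_⟩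
      · rw [map_div₀, norm_div, hl, div_lt_iff₀ hXn]
        rw [div_lt_iff₀ hε] at hX
        linarith
      · rw [← hQ0, h2]
        exact AddSubgroup.nsmul_mem _ (AddSubgroup.subset_closure
          (mem_SetE_leg h0 h1 h3 hY3)) 2

/-- The point of abscissa `u` of the Legendre curve with parameter `u v`. -/
theorem orthR (ι : AlgebraicClosure ℚ →+* PadicAlgCl 2) {u v : AlgebraicClosure ℚ}
    (hu1 : u ≠ 1) (hu : ‖ι (1 - u)‖ < 1 / 256) (hv0 : v ≠ 0) (hv : ‖ι v‖ < 1)
    {y : AlgebraicClosure ℚ} (h : (leg (u * v)).toAffine.Nonsingular u y) :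
    y ≠ 0 ∧ (∀ N : ℤ, N ≠ 0 → N • (Affine.Point.some u y h : (leg (u * v)).toAffine.Point) ≠ 0) ∧
      (2 : ℕ) • (Affine.Point.some u y h : (leg (u * v)).toAffine.Point) ∈
        AddSubgroup.closure (SetE (leg (u * v)) v) := by
  have hun : ‖ι u‖ = 1 := by
    have e : ι u = 1 - ι (1 - u) := by rw [map_sub, map_one]; ring
    rw [e]
    refine (norm_sub_eq_of_lt ?_).trans norm_one
    rw [norm_one]
    exact hu.trans (by norm_num)
  have hu0 : u ≠ 0 := by
    rintro rfl
    rw [map_zero, norm_zero] at hun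
    norm_num at hun
  have hbn : ‖ι (u * v)‖ < 1 := by
    rw [map_mul, norm_mul, hun, one_mul]
    exact hv
  have hb0 : u * v ≠ 0 := mul_ne_zero hu0 hv0
  have hb1 : u * v ≠ 1 := by
    intro e
    rw [e, map_one, norm_one] at hbn
    exact lt_irrefl _ hbn
  have hN : ∀ N : ℤ, N ≠ 0 →
      N • (Affine.Point.some u y h : (leg (u * v)).toAffine.Point) ≠ 0 := by
    intro N hN hN0
    obtain ⟨Y3, h3, e3⟩ := trans1 hb0 hb1 h hu1
    have hT1 := two_tors hb0 hb1 (tors1 hb0 hb1)
    refine nonTor ι hb0 hb1 _ _ h3 ?_ (2 * N) (mul_ne_zero two_ne_zero hN) ?_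
    · rw [max_eq_left hbn.le]
      have e1 : ‖ι (1 - v)‖ = 1 := by
        rw [map_sub, map_one]
        refine (norm_sub_eq_of_lt ?_).trans norm_one
        rw [norm_one]
        exact hv
      have e2 : (u - u * v) / (u - 1) = -(u * (1 - v) / (1 - u)) := by
        have : u - 1 ≠ 0 := sub_ne_zero.2 hu1
        have : 1 - u ≠ 0 := sub_ne_zero.2 (Ne.symm hu1)
        field_simp
        ring
      rw [e2, map_neg, norm_neg, map_div₀, norm_div, map_mul, norm_mul, hun, e1, one_mul]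
      have hp : 0 < ‖ι (1 - u)‖ := by
        rw [norm_pos_iff, Ne, map_eq_zero]
        exact sub_ne_zero.2 (Ne.symm hu1)
      rw [lt_div_iff₀ hp]
      linarith
    · rw [← e3]
      exact mul_smul_add hN0 hT1
  obtain ⟨Y3, h3, e3⟩ := trans0 hb0 hb1 h hu0
  have hT0 := two_tors hb0 hb1 (tors0 hb0 hb1)
  have h2 : (2 : ℕ) • (Affine.Point.some u y h : (leg (u * v)).toAffine.Point) =
      (2 : ℕ) • (Affine.Point.some (u * v / u) Y3 h3 : (leg (u * v)).toAffine.Point) := by
    rw [← e3, nsmul_add, hT0, add_zero]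
  have h2N : (2 : ℕ) • (Affine.Point.some u y h : (leg (u * v)).toAffine.Point) ≠ 0 := by
    have := hN 2 two_ne_zero
    rwa [show (2 : ℤ) = ((2 : ℕ) : ℤ) from rfl, natCast_zsmul] at this
  refine ⟨?_, hN, ?_⟩
  · rintro rfl
    exact h2N (two_tors hb0 hb1 h)
  · have hY3 : Y3 ≠ 0 := by
      rintro rfl
      rw [h2, two_tors hb0 hb1 h3] at h2N
      exact h2N rfl
    rw [h2]
    exact AddSubgroup.nsmul_mem _ (AddSubgroup.subset_closure
      (mem_SetE_leg' hb0 hb1 h3 hY3 (mul_div_cancel_left₀ v hu0))) 2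

end Pool.Agent.ZC
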