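import Pool.Agent.ZCP.Main

/-!
# Systems of orthogonal subgroups of all elliptic curves
-/

set_option autoImplicit false

noncomputable section

namespace Pool.Agent.ZC

open Polynomial WeierstrassCurve
open scoped Classical

/-- A system over the number field `K`: subgroups `G E` of `E(ℚ̄)`, for all Weierstrass curves `E`,
such that all zero-cycles in the kernel of the Albanese map of a product of elliptic curves are
torsion, if they are supported on the product of these groups. -/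
structure IsSystem (K : IntermediateField ℚ (AlgebraicClosure ℚ))
    (G : (E : WeierstrassCurve (AlgebraicClosure ℚ)) → AddSubgroup E.toAffine.Point) : Prop where
  /-- `K` is a number field -/
  fin : FiniteDimensional ℚ K
  /-- the quotients `E(ℚ̄) / G E` are torsion-free -/
  sat : ∀ (E : WeierstrassCurve (AlgebraicClosure ℚ)) (P : E.toAffine.Point) (k : ℕ), 0 < k →
    k • P ∈ G E → P ∈ G E
  /-- the groups are compatible with homomorphisms of the curves -/
  func : ∀ (E E' : WeierstrassCurve (AlgebraicClosure ℚ))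
    (φ : E.toAffine.Point →+ E'.toAffine.Point), Lift (fun P => φ P) → ∀ a ∈ G E, φ a ∈ G E'
  /-- the groups are stable under the Galois group of `K` -/
  gal : ∀ (L : IntermediateField ℚ (AlgebraicClosure ℚ)), K ≤ L → ∀ (E : WeierstrassCurve L)
    (σ : AlgebraicClosure ℚ ≃ₐ[L] AlgebraicClosure ℚ), ∀ a ∈ G (E⁄(AlgebraicClosure ℚ)),
    Affine.Point.map (W' := E) (σ : AlgebraicClosure ℚ →ₐ[L] AlgebraicClosure ℚ) a ∈
      G (E⁄(AlgebraicClosure ℚ))
  /-- the degrees of the points modulo torsion are unbounded over every number field -/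
  deg : ∀ (L : IntermediateField ℚ (AlgebraicClosure ℚ)), FiniteDimensional ℚ L →
    ∀ (E : WeierstrassCurve L), E.IsElliptic → ∀ d : ℕ, ∃ a ∈ G (E⁄(AlgebraicClosure ℚ)),
    ∃ σ : Fin d → AlgebraicClosure ℚ ≃ₐ[L] AlgebraicClosure ℚ, ∀ i j, i ≠ j →
      ¬ IsOfFinAddOrder
        (Affine.Point.map (W' := E) (σ i : AlgebraicClosure ℚ →ₐ[L] AlgebraicClosure ℚ) a -
        Affine.Point.map (W' := E) (σ j : AlgebraicClosure ℚ →ₐ[L] AlgebraicClosure ℚ) a)
  /-- the groups have infinite rank -/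
  rank : ∀ E : WeierstrassCurve (AlgebraicClosure ℚ), E.IsElliptic →
    ∃ P : ℕ → E.toAffine.Point, LinearIndependent ℤ P ∧ ∀ i, P i ∈ G E
  /-- the zero-cycles on products of elliptic curves which are supported on the product of the
  groups are torsion if they are in the kernel of the Albanese map -/
  orth : ∀ (N : ℕ) (E : Fin N → WeierstrassCurve (AlgebraicClosure ℚ)), (∀ i, (E i).IsElliptic) →
    ∀ z : Z0N E, (∀ p ∈ z.support, ∀ i, p i ∈ G (E i)) → z.sum (fun _ a => a) = 0 →
      (∀ i, z.sum (fun p a => a • p i) = 0) → ∃ M : ℕ, 0 < M ∧ M • z ∈ RatEqN E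

/-- the saturation of the group generated by `SetE` -/
def satG (u : AlgebraicClosure ℚ) (E : WeierstrassCurve (AlgebraicClosure ℚ)) :
    AddSubgroup E.toAffine.Point where
  carrier := {P | ∃ k : ℕ, 0 < k ∧ k • P ∈ AddSubgroup.closure (SetE E u)}
  zero_mem' := ⟨1, one_pos, by rw [smul_zero]; exact AddSubgroup.zero_mem _⟩
  add_mem' := by
    rintro a b ⟨k, hk, ha⟩ ⟨m, hm, hb⟩
    refine ⟨k * m, Nat.mul_pos hk hm, ?_⟩
    rw [nsmul_add]
    refine AddSubgroup.add_mem _ ?_ ?_
    · rw [mul_comm, mul_smul]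
      exact AddSubgroup.nsmul_mem _ ha m
    · rw [mul_smul]
      exact AddSubgroup.nsmul_mem _ hb k
  neg_mem' := by
    rintro a ⟨k, hk, ha⟩
    exact ⟨k, hk, by rw [neg_nsmul]; exact AddSubgroup.neg_mem _ ha⟩

theorem closure_le_satG {u : AlgebraicClosure ℚ} {E : WeierstrassCurve (AlgebraicClosure ℚ)}
    {a : E.toAffine.Point} (ha : a ∈ AddSubgroup.closure (SetE E u)) : a ∈ satG u E :=
  ⟨1, one_pos, by rw [one_smul]; exact ha⟩

theorem mem_satG_of_nsmul {u : AlgebraicClosure ℚ} {E : WeierstrassCurve (AlgebraicClosure ℚ)}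
    {a : E.toAffine.Point} {k : ℕ} (hk : 0 < k) (ha : k • a ∈ satG u E) : a ∈ satG u E := by
  obtain ⟨m, hm, h⟩ := ha
  exact ⟨m * k, Nat.mul_pos hm hk, by rw [mul_smul]; exact h⟩

theorem closure_image {u : AlgebraicClosure ℚ} {E E' : WeierstrassCurve (AlgebraicClosure ℚ)}
    {φ : E.toAffine.Point →+ E'.toAffine.Point} (hφ : Lift (fun P => φ P)) {a : E.toAffine.Point}
    (ha : a ∈ AddSubgroup.closure (SetE E u)) : φ a ∈ AddSubgroup.closure (SetE E' u) := by
  have hle : AddSubgroup.closure (SetE E u) ≤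
      (AddSubgroup.closure (SetE E' u)).comap φ := by
    rw [AddSubgroup.closure_le]
    intro b hb
    exact AddSubgroup.subset_closure (SetE.image hφ (map_zero φ) hb)
  exact hle ha

theorem satG_system (ι : AlgebraicClosure ℚ →+* PadicAlgCl 2) {u : AlgebraicClosure ℚ}
    (hu1 : u ≠ 1) (hu : ‖ι (1 - u)‖ < 1 / 256) :
    IsSystem (IntermediateField.adjoin ℚ {u}) (satG u) where
  fin := by
    have : Algebra.IsAlgebraic ℚ (AlgebraicClosure ℚ) := AlgebraicClosure.isAlgebraic ℚ
    exact IntermediateField.adjoin.finiteDimensional (this.isAlgebraic u).isIntegral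
  sat := fun E P k hk h => mem_satG_of_nsmul hk h
  func := by
    rintro E E' φ hφ a ⟨k, hk, ha⟩
    exact ⟨k, hk, by rw [← map_nsmul]; exact closure_image hφ ha⟩
  gal := by
    rintro L hKL E σ a ⟨k, hk, ha⟩
    exact ⟨k, hk, by
      rw [← map_nsmul]
      exact closure_map L (hKL (IntermediateField.subset_adjoin ℚ {u} rfl)) E σ _ ha⟩
  deg := by
    intro L _ E _ d
    obtain ⟨a, ha, h⟩ := closure_orbit ι u hu1 hu L E d
    exact ⟨a, closure_le_satG ha, h⟩
  rank := by
    intro E _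
    obtain ⟨l, _, hl1, hl, -, φ, hφ, hL⟩ := exists_leg2 ι E
    obtain ⟨P, hP, hPS⟩ := many ι l u hl hl1 hu1 hu
    exact ⟨fun i => φ (P i), hP.map_injOn φ.toIntLinearMap (fun a _ b _ h => hφ.1 h),
      fun i => closure_le_satG (AddSubgroup.subset_closure (SetE.image hL (map_zero φ) (hPS i)))⟩
  orth := by
    intro N E hE z hz hd hs
    have h1 : ∀ p : PtN E, ∀ i, ∃ k : ℕ, 0 < k ∧ (p ∈ z.support →
        k • p i ∈ AddSubgroup.closure (SetE (E i) u)) := by
      intro p i
      by_cases hp : p ∈ z.support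
      · obtain ⟨k, hk, h⟩ := hz p hp i
        exact ⟨k, hk, fun _ => h⟩
      · exact ⟨1, one_pos, fun h => absurd h hp⟩
    choose k hk hkp using h1
    refine ⟨2 * ∏ i, ∏ p ∈ z.support, k p i,
      Nat.mul_pos two_pos (Finset.prod_pos fun i _ => Finset.prod_pos fun p _ => hk p i), ?_⟩
    refine cycleN E (fun i x y => ?_) (fun i => SetE (E i) u)
      (fun i j _ P hP Q hQ => SetE.sym hP hQ) (fun i => ∏ p ∈ z.support, k p i) z ?_ hd hs
    · have := hE i
      exact two_add_left (E i) x y 0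
    · intro p hp i
      obtain ⟨c, hc⟩ := Finset.dvd_prod_of_mem (fun q => k q i) hp
      rw [hc, mul_comm, mul_smul]
      exact AddSubgroup.nsmul_mem _ (hkp p i hp) c

/-- the change of variables `x ↦ 1 - x` -/
theorem SetE_one_sub {E : WeierstrassCurve (AlgebraicClosure ℚ)} {v : AlgebraicClosure ℚ}
    {a : E.toAffine.Point} (ha : a ∈ SetE E v) : a ∈ SetE E (1 - v) := by
  obtain ⟨L, y, h, G, hL0, hL1, hy, hG, hG0, rfl⟩ := ha
  obtain ⟨w, hw⟩ : ∃ w : AlgebraicClosure ℚ, w ^ 2 = -1 :=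
    IsAlgClosed.exists_pow_nat_eq _ (by norm_num)
  have hw0 : w ≠ 0 := by
    rintro rfl
    rw [zero_pow two_ne_zero, eq_comm, neg_eq_zero] at hw
    exact one_ne_zero hw
  have hI : IsoChg (leg (1 - L)) (leg L) w 1 0 0 := by
    refine ⟨hw0, ?_, ?_, ?_, ?_, ?_⟩
    all_goals simp only [leg]
    · ring
    · rw [hw]
      ring
    · ring
    · rw [show w ^ 4 = (w ^ 2) ^ 2 by ring, hw]
      ring
    · ring
  have hΔ : (leg L).Δ ≠ 0 := by
    rw [leg_Δ]
    exact mul_ne_zero (by norm_num) (pow_ne_zero 2 (mul_ne_zero hL0 (sub_ne_zero.2 hL1)))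
  have hL0' : 1 - L ≠ 0 := sub_ne_zero.2 (Ne.symm hL1)
  have hL1' : 1 - L ≠ 1 := by
    intro e
    exact hL0 (by linear_combination -e)
  have hw3 : w ^ 3 ≠ 0 := pow_ne_zero 3 hw0
  have hns : (leg (1 - L)).toAffine.Nonsingular (1 - v) (y / w ^ 3) := by
    rw [(IsLeg.leg hL0' hL1').nonsingular]
    have h1 := ((IsLeg.leg hL0 hL1).nonsingular v y).1 h
    have h6 : (w ^ 3) ^ 2 = -1 := by
      rw [show (w ^ 3) ^ 2 = (w ^ 2) ^ 3 by ring, hw]
      norm_num
    rw [div_pow, h6, h1]
    ring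
  refine ⟨1 - L, y / w ^ 3, hns, fun P => G (hI.hom hΔ P), hL0', hL1', div_ne_zero hy hw3,
    hG.comp (hI.lift hΔ), ?_, ?_⟩
  · show G (hI.hom hΔ 0) = 0
    rw [map_zero, hG0]
  · congr 1
    change (Affine.Point.some v y h : (leg L).toAffine.Point) =
      hI.fn hΔ (.some (1 - v) (y / w ^ 3) hns)
    rw [hI.fn_some, Affine.Point.some.injEq]
    refine ⟨?_, ?_⟩
    · rw [hw]
      ring
    · field_simp
      ring

theorem closure_one_sub {E : WeierstrassCurve (AlgebraicClosure ℚ)} {v : AlgebraicClosure ℚ}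
    {a : E.toAffine.Point} (ha : a ∈ AddSubgroup.closure (SetE E v)) :
    a ∈ AddSubgroup.closure (SetE E (1 - v)) :=
  AddSubgroup.closure_mono (fun _ hb => SetE_one_sub hb) ha

end Pool.Agent.ZC
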