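import Pool.Agent.ZCInf.Start
import Pool.Agent.ZC.NonTor

/-!
# Translations by points of order two on Legendre curves
-/

set_option autoImplicit false

noncomputable section

namespace Pool.Agent.ZC

open Polynomial WeierstrassCurve
open scoped Classical

theorem tors0 {K : Type} [Field K] [CharZero K] {l : K} (h0 : l ≠ 0) (h1 : l ≠ 1) :
    (leg l).toAffine.Nonsingular 0 0 := by
  rw [(IsLeg.leg h0 h1).nonsingular]
  ring

theorem tors1 {K : Type} [Field K] [CharZero K] {l : K} (h0 : l ≠ 0) (h1 : l ≠ 1) :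
    (leg l).toAffine.Nonsingular 1 0 := by
  rw [(IsLeg.leg h0 h1).nonsingular]
  ring

theorem two_tors {K : Type} [Field K] [CharZero K] {l : K} (h0 : l ≠ 0) (h1 : l ≠ 1)
    {x : K} (h : (leg l).toAffine.Nonsingular x 0) :
    (2 : ℕ) • (Affine.Point.some x 0 h : (leg l).toAffine.Point) = 0 := by
  have hleg : IsLeg (leg l) l := IsLeg.leg h0 h1
  rw [two_nsmul]
  refine Affine.Point.add_of_Y_eq rfl ?_
  rw [Affine.negY, hleg.a₁, hleg.a₃]
  ring

/-- translation by the point with abscissa `0` -/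
theorem trans0 {K : Type} [Field K] [CharZero K] {l : K} (h0 : l ≠ 0) (h1 : l ≠ 1)
    {x y : K} (h : (leg l).toAffine.Nonsingular x y) (hx : x ≠ 0) :
    ∃ Y3 h3, (Affine.Point.some x y h : (leg l).toAffine.Point) +
      .some 0 0 (tors0 h0 h1) = .some (l / x) Y3 h3 := by
  have hW : IsLeg (leg l) l := IsLeg.leg h0 h1
  have h' := tors0 h0 h1
  have hy : y ^ 2 = x * (x - 1) * (x - l) := (hW.nonsingular x y).1 h
  have e1 : (leg l).toAffine.slope x 0 y 0 = (y - 0) / (x - 0) := Affine.slope_of_X_ne hx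
  have e2 : (leg l).toAffine.addX x 0 ((leg l).toAffine.slope x 0 y 0) = l / x := by
    rw [e1, Affine.addX, hW.a₁, hW.a₂, sub_zero, sub_zero, div_pow, hy]
    field_simp
    ring
  have h4 := Affine.Point.add_some (h₁ := h) (h₂ := h') (fun hh => hx hh.1)
  have h5 := Affine.nonsingular_add h h' (fun hh => hx hh.1)
  rw [e2] at h5
  refine ⟨_, h5, ?_⟩
  rw [h4]
  congr 1

/-- translation by the point with abscissa `1` -/
theorem trans1 {K : Type} [Field K] [CharZero K] {l : K} (h0 : l ≠ 0) (h1 : l ≠ 1)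
    {x y : K} (h : (leg l).toAffine.Nonsingular x y) (hx : x ≠ 1) :
    ∃ Y3 h3, (Affine.Point.some x y h : (leg l).toAffine.Point) +
      .some 1 0 (tors1 h0 h1) = .some ((x - l) / (x - 1)) Y3 h3 := by
  have hW : IsLeg (leg l) l := IsLeg.leg h0 h1
  have h' := tors1 h0 h1
  have hx1 : x - 1 ≠ 0 := sub_ne_zero.2 hx
  have hy : y ^ 2 = x * (x - 1) * (x - l) := (hW.nonsingular x y).1 h
  have e1 : (leg l).toAffine.slope x 1 y 0 = (y - 0) / (x - 1) := Affine.slope_of_X_ne hx
  have e2 : (leg l).toAffine.addX x 1 ((leg l).toAffine.slope x 1 y 0) =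
      (x - l) / (x - 1) := by
    rw [e1, Affine.addX, hW.a₁, hW.a₂, sub_zero, div_pow, hy]
    field_simp
    ring
  have h4 := Affine.Point.add_some (h₁ := h) (h₂ := h') (fun hh => hx hh.1)
  have h5 := Affine.nonsingular_add h h' (fun hh => hx hh.1)
  rw [e2] at h5
  refine ⟨_, h5, ?_⟩
  rw [h4]
  congr 1

theorem lift_id {k : Type} [Field k] (W : WeierstrassCurve k) :
    Lift (fun P : W.toAffine.Point => P) := by
  intro F _ _ a
  exact ⟨a, fun O _ p hp => hp⟩

theorem mem_SetE_leg {l x y : AlgebraicClosure ℚ} (h0 : l ≠ 0) (h1 : l ≠ 1)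
    (h : (leg l).toAffine.Nonsingular x y) (hy : y ≠ 0) :
    (Affine.Point.some x y h : (leg l).toAffine.Point) ∈ SetE (leg l) x :=
  ⟨l, y, h, fun P => P, h0, h1, hy, lift_id _, rfl, rfl⟩

theorem mem_SetE_leg' {l x y v : AlgebraicClosure ℚ} (h0 : l ≠ 0) (h1 : l ≠ 1)
    (h : (leg l).toAffine.Nonsingular x y) (hy : y ≠ 0) (hx : x = v) :
    (Affine.Point.some x y h : (leg l).toAffine.Point) ∈ SetE (leg l) v := by
  subst hx
  exact mem_SetE_leg h0 h1 h hy

end Pool.Agent.ZC
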