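import Pool.Agent.ZCP.Seq
import Pool.Agent.ZC.Iso2

/-!
# Twists of Legendre curves
-/

set_option autoImplicit false

noncomputable section

namespace Pool.Agent.ZC

open Polynomial WeierstrassCurve
open scoped Classical

/-- the curve `Y² = X (X - d) (X - d b)` -/
def tw {K : Type} [Field K] (d b : K) : WeierstrassCurve K := ⟨0, -(d * (1 + b)), 0, d ^ 2 * b, 0⟩

theorem tw_Δ {K : Type} [Field K] (d b : K) : (tw d b).Δ = 16 * d ^ 6 * (b * (b - 1)) ^ 2 := by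
  simp only [tw, WeierstrassCurve.Δ, WeierstrassCurve.b₂, WeierstrassCurve.b₄,
    WeierstrassCurve.b₆, WeierstrassCurve.b₈]
  ring

theorem tw_c₄ {K : Type} [Field K] (d b : K) : (tw d b).c₄ = 16 * d ^ 2 * (b ^ 2 - b + 1) := by
  simp only [tw, WeierstrassCurve.c₄, WeierstrassCurve.b₂, WeierstrassCurve.b₄]
  ring

theorem tw_ell {K : Type} [Field K] [CharZero K] {d b : K} (hd : d ≠ 0) (h0 : b ≠ 0)
    (h1 : b ≠ 1) : (tw d b).IsElliptic := by
  refine ⟨?_⟩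
  rw [tw_Δ, isUnit_iff_ne_zero]
  exact mul_ne_zero (mul_ne_zero (by norm_num) (pow_ne_zero 6 hd))
    (pow_ne_zero 2 (mul_ne_zero h0 (sub_ne_zero.2 h1)))

theorem tw_j {K : Type} [Field K] [CharZero K] {d b : K} (hd : d ≠ 0) (h0 : b ≠ 0)
    (h1 : b ≠ 1) [(tw d b).IsElliptic] :
    (tw d b).j = 256 * (b ^ 2 - b + 1) ^ 3 / (b * (b - 1)) ^ 2 := by
  have hb : b - 1 ≠ 0 := sub_ne_zero.2 h1
  rw [WeierstrassCurve.j, tw_c₄, Units.val_inv_eq_inv_val, WeierstrassCurve.coe_Δ', tw_Δ]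
  field_simp
  ring

theorem tw_chg {K : Type} [Field K] {d b w : K} (hw : w ^ 2 = d) (hd : d ≠ 0) :
    IsoChg (leg b) (tw d b) w 0 0 0 := by
  refine ⟨?_, ?_, ?_, ?_, ?_, ?_⟩
  · rintro rfl
    apply hd
    rw [← hw]
    ring
  all_goals simp only [leg, tw]
  · ring
  · rw [hw]
    ring
  · ring
  · rw [show w ^ 4 = (w ^ 2) ^ 2 by ring, hw]
    ring
  · ring

/-- the point `(d u, d² u)` of the twist, for `d = (u - 1) (1 - v)`, `b = u v` -/
theorem tw_point {K : Type} [Field K] [CharZero K] {u v : K} (hd : (u - 1) * (1 - v) ≠ 0)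
    (h0 : u * v ≠ 0) (h1 : u * v ≠ 1) :
    (tw ((u - 1) * (1 - v)) (u * v)).toAffine.Nonsingular ((u - 1) * (1 - v) * u)
      (((u - 1) * (1 - v)) ^ 2 * u) := by
  have := tw_ell hd h0 h1
  have hΔ : (tw ((u - 1) * (1 - v)) (u * v)).Δ ≠ 0 :=
    (tw ((u - 1) * (1 - v)) (u * v)).coe_Δ' ▸ (tw ((u - 1) * (1 - v)) (u * v)).Δ'.ne_zero
  refine (Affine.equation_iff_nonsingular_of_Δ_ne_zero hΔ).mp ?_
  rw [Affine.equation_iff]
  simp only [tw]
  ring

end Pool.Agent.ZC
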