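import Pool.Agent.ZCP.Final

/-!
# Cycles on the product of two curves with points of two systems
-/

set_option autoImplicit false

noncomputable section

namespace Pool.Agent.ZC

open Polynomial WeierstrassCurve
open scoped Classical
open Function

/-- the abstract form -/
theorem two_abs {A B Q : Type} [AddCommGroup A] [AddCommGroup B] [AddCommGroup Q]
    (hQ : ∀ (q : Q) (k : ℕ), 0 < k → k • q = 0 → q = 0) (f : A → B → Q)
    (h1 : ∀ a b y, f (a + b) y = f a y + f b y - f 0 y)
    (h2 : ∀ x a b, f x (a + b) = f x a + f x b - f x 0)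
    (H H' : AddSubgroup A) (C : Set B)
    (hH : ∀ x ∈ H, ∀ y ∈ C, f x y - f x 0 - f 0 y + f 0 0 = 0)
    (hH' : ∀ x ∈ H', ∀ y ∈ C, f x y - f x 0 - f 0 y + f 0 0 = 0)
    {I : Type} (s : Finset I) (n : I → ℤ) (x : I → A) (y : I → B)
    (hx : ∀ i ∈ s, ∃ k : ℕ, 0 < k ∧ k • x i ∈ H ⊔ H') (hy : ∀ i ∈ s, y i ∈ C)
    (hd : ∑ i ∈ s, n i = 0) (hsx : ∑ i ∈ s, n i • x i = 0) (hsy : ∑ i ∈ s, n i • y i = 0) :
    ∑ i ∈ s, n i • f (x i) (y i) = 0 := by
  have hβ : ∀ b : B, ∃ β : A →+ Q, ∀ a, β a = f a b - f a 0 - f 0 b + f 0 0 := by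
    intro b
    refine ⟨AddMonoidHom.mk' (fun a => f a b - f a 0 - f 0 b + f 0 0) ?_, fun a => rfl⟩
    intro a a'
    rw [h1 a a' b, h1 a a' 0]
    abel
  obtain ⟨g, hg⟩ : ∃ g : A →+ Q, ∀ a, g a = f a 0 - f 0 0 := by
    refine ⟨AddMonoidHom.mk' (fun a => f a 0 - f 0 0) ?_, fun a => rfl⟩
    intro a a'
    rw [h1 a a' 0]
    abel
  obtain ⟨h, hh⟩ : ∃ h : B →+ Q, ∀ a, h a = f 0 a - f 0 0 := by
    refine ⟨AddMonoidHom.mk' (fun a => f 0 a - f 0 0) ?_, fun a => rfl⟩
    intro a a'
    rw [h2 0 a a']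
    abel
  have key : ∀ i ∈ s, n i • f (x i) (y i) = n i • g (x i) + n i • h (y i) + n i • f 0 0 := by
    intro i hi
    obtain ⟨β, hβ⟩ := hβ (y i)
    have hle : H ⊔ H' ≤ β.ker := by
      refine sup_le ?_ ?_
      · intro a ha
        rw [AddMonoidHom.mem_ker, hβ]
        exact hH a ha _ (hy i hi)
      · intro a ha
        rw [AddMonoidHom.mem_ker, hβ]
        exact hH' a ha _ (hy i hi)
    obtain ⟨k, hk, hkx⟩ := hx i hi
    have e1 : β (x i) = 0 := by
      refine hQ _ k hk ?_
      rw [← map_nsmul]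
      exact AddMonoidHom.mem_ker.1 (hle hkx)
    rw [hβ] at e1
    rw [← smul_add, ← smul_add, hg, hh]
    congr 1
    have e2 : f (x i) (y i) = (f (x i) (y i) - f (x i) 0 - f 0 (y i) + f 0 0) +
        (f (x i) 0 - f 0 0 + (f 0 (y i) - f 0 0) + f 0 0) := by abel
    rw [e2, e1, zero_add]
  rw [Finset.sum_congr rfl key, Finset.sum_add_distrib, Finset.sum_add_distrib, ← Finset.sum_smul,
    hd, zero_smul, add_zero]
  have e3 : ∑ i ∈ s, n i • g (x i) = g (∑ i ∈ s, n i • x i) := by
    rw [map_sum]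
    exact Finset.sum_congr rfl fun i _ => (map_zsmul _ _ _).symm
  have e4 : ∑ i ∈ s, n i • h (y i) = h (∑ i ∈ s, n i • y i) := by
    rw [map_sum]
    exact Finset.sum_congr rfl fun i _ => (map_zsmul _ _ _).symm
  rw [e3, e4, hsx, hsy, map_zero, map_zero, add_zero]

/-- the zero-cycles with a multiple which is rationally equivalent to zero -/
def TorN {k : Type} [Field k] {I : Type} (W : I → WeierstrassCurve k) : AddSubgroup (Z0N W) where
  carrier := {z | ∃ M : ℕ, 0 < M ∧ M • z ∈ RatEqN W}
  zero_mem' := ⟨1, one_pos, by rw [smul_zero]; exact zero_mem _⟩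
  add_mem' := by
    rintro a b ⟨k, hk, ha⟩ ⟨m, hm, hb⟩
    refine ⟨k * m, Nat.mul_pos hk hm, ?_⟩
    rw [nsmul_add]
    refine AddSubgroup.add_mem _ ?_ ?_
    · rw [mul_comm, mul_smul]
      exact AddSubgroup.nsmul_mem _ ha m
    · rw [mul_smul]
      exact AddSubgroup.nsmul_mem _ hb k
  neg_mem' := by
    rintro a ⟨k, hk, ha⟩
    exact ⟨k, hk, by rw [neg_nsmul]; exact AddSubgroup.neg_mem _ ha⟩

theorem TorN.sat {k : Type} [Field k] {I : Type} {W : I → WeierstrassCurve k} {z : Z0N W} {m : ℕ}
    (hm : 0 < m) (h : m • z ∈ TorN W) : z ∈ TorN W := by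
  obtain ⟨M, hM, h⟩ := h
  exact ⟨M * m, Nat.mul_pos hM hm, by rw [mul_smul]; exact h⟩

theorem TorN.add {I : Type} {W : I → WeierstrassCurve (AlgebraicClosure ℚ)} (x : PtN W) (i : I)
    (hW : (W i).IsElliptic) (a b : (W i).toAffine.Point) :
    (Finsupp.single (update x i (a + b)) (1 : ℤ) - Finsupp.single (update x i a) 1 -
      Finsupp.single (update x i b) 1 + Finsupp.single (update x i 0) 1 : Z0N W) ∈ TorN W := by
  have h := RatEqN.push1 x i (two_add_left (W i) a b (0 : (W i).toAffine.Point))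
  have h' := map_nsmul (Finsupp.mapDomain.addMonoidHom
    (fun ab : (W i).toAffine.Point × (W i).toAffine.Point =>
      update x i ab.1) : Z0 (W i) (W i) →+ Z0N W) 2
    (Finsupp.single (a + b, (0 : (W i).toAffine.Point)) (1 : ℤ) -
      Finsupp.single (a, 0) 1 - Finsupp.single (b, 0) 1 + Finsupp.single (0, 0) 1)
  rw [map_add, map_sub, map_sub] at h'
  simp only [Finsupp.mapDomain.addMonoidHom_apply, Finsupp.mapDomain_single] at h'
  rw [h'] at h
  exact ⟨2, two_pos, h⟩

theorem TorN.add' {I : Type} {W : I → WeierstrassCurve (AlgebraicClosure ℚ)} (i : I)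
    (hW : (W i).IsElliptic) (p q r s : PtN W) (h1 : p i = q i + r i) (h2 : s i = 0)
    (h : ∀ j, j ≠ i → q j = p j ∧ r j = p j ∧ s j = p j) :
    (Finsupp.single p (1 : ℤ) - Finsupp.single q 1 - Finsupp.single r 1 +
      Finsupp.single s 1 : Z0N W) ∈ TorN W := by
  have key := TorN.add p i hW (q i) (r i)
  have e1 : update p i (q i + r i) = p := by rw [← h1, update_eq_self]
  have e2 : update p i (q i) = q := by
    funext j
    by_cases hj : j = i
    · subst hj
      rw [update_self]
    · rw [update_of_ne hj, (h j hj).1]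
  have e3 : update p i (r i) = r := by
    funext j
    by_cases hj : j = i
    · subst hj
      rw [update_self]
    · rw [update_of_ne hj, (h j hj).2.1]
  have e4 : update p i 0 = s := by
    funext j
    by_cases hj : j = i
    · subst hj
      rw [update_self, h2]
    · rw [update_of_ne hj, (h j hj).2.2]
  rw [e1, e2, e3, e4] at key
  exact key

/-- the point with two given coordinates -/
def pt2 {k : Type} [Field k] {W : Fin 2 → WeierstrassCurve k} (a : (W 0).toAffine.Point)
    (b : (W 1).toAffine.Point) : PtN W :=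
  fun i => Fin.cases (motive := fun i => (W i).toAffine.Point) a
    (fun j => Fin.cases (motive := fun j => (W j.succ).toAffine.Point) b (fun l => l.elim0) j) i

theorem pt2_zero {k : Type} [Field k] {W : Fin 2 → WeierstrassCurve k}
    (a : (W 0).toAffine.Point) (b : (W 1).toAffine.Point) :
    (pt2 a b : PtN W) 0 = a := rfl

theorem pt2_one {k : Type} [Field k] {W : Fin 2 → WeierstrassCurve k}
    (a : (W 0).toAffine.Point) (b : (W 1).toAffine.Point) :
    (pt2 a b : PtN W) 1 = b := rfl

theorem four {Q : Type} [AddCommGroup Q] {A B C D : Q} (h : A - B - C + D = 0) :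
    A = B + C - D := by
  rw [← sub_eq_zero, ← h]
  abel

theorem pt2_eta {k : Type} [Field k] {W : Fin 2 → WeierstrassCurve k} (p : PtN W) :
    pt2 (p 0) (p 1) = p := by
  funext i
  refine Fin.cases rfl (fun i => ?_) i
  exact Fin.cases rfl (fun i => i.elim0) i

/-- zero-cycles on the product of two curves, supported on the product of the group generated by
the groups of two systems on the first and the intersection of these groups on the second curve -/
theorem two_systems {K K' : IntermediateField ℚ (AlgebraicClosure ℚ)}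
    {G G' : (E : WeierstrassCurve (AlgebraicClosure ℚ)) → AddSubgroup E.toAffine.Point}
    (hG : IsSystem K G) (hG' : IsSystem K' G') (W : Fin 2 → WeierstrassCurve (AlgebraicClosure ℚ))
    (hW : ∀ i, (W i).IsElliptic) (z : Z0N W)
    (hz : ∀ p ∈ z.support, (∃ k : ℕ, 0 < k ∧ k • p 0 ∈ G (W 0) ⊔ G' (W 0)) ∧
      p 1 ∈ G (W 1) ⊓ G' (W 1))
    (hd : z.sum (fun _ a => a) = 0) (hs : ∀ i, z.sum (fun p a => a • p i) = 0) :
    ∃ M : ℕ, 0 < M ∧ M • z ∈ RatEqN W := by
  change z ∈ TorN W
  let π : Z0N W →+ Z0N W ⧸ TorN W := QuotientAddGroup.mk' (TorN W)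
  have hπ : ∀ z, π z = 0 ↔ z ∈ TorN W := fun z => QuotientAddGroup.eq_zero_iff z
  have hQ : ∀ (q : Z0N W ⧸ TorN W) (k : ℕ), 0 < k → k • q = 0 → q = 0 := by
    intro q k hk h
    obtain ⟨z, rfl⟩ := QuotientAddGroup.mk'_surjective (TorN W) q
    change π z = 0
    rw [hπ]
    refine TorN.sat hk ?_
    rw [← hπ, map_nsmul]
    exact h
  -- the condition for one pair of points
  have hsym : ∀ (G : (E : WeierstrassCurve (AlgebraicClosure ℚ)) → AddSubgroup E.toAffine.Point)
      (K : IntermediateField ℚ (AlgebraicClosure ℚ)), IsSystem K G → ∀ x ∈ G (W 0),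
      ∀ y ∈ G (W 1), π (Finsupp.single (pt2 x y) 1) -
        π (Finsupp.single (pt2 x 0) 1) - π (Finsupp.single (pt2 0 y) 1) +
        π (Finsupp.single (pt2 0 0) 1) = 0 := by
    intro G K hG x hx y hy
    rw [← map_sub, ← map_sub, ← map_add, hπ]
    have hin : ∀ a ∈ G (W 0), ∀ b ∈ G (W 1), ∀ i, (pt2 a b : PtN W) i ∈ G (W i) := by
      intro a ha b hb i
      refine Fin.cases ha (fun i => ?_) i
      exact Fin.cases hb (fun i => i.elim0) i
    refine hG.orth 2 W hW _ ?_ ?_ ?_
    · intro p hp i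
      have hp' : p = pt2 x y ∨ p = pt2 x 0 ∨ p = pt2 0 y ∨
          p = pt2 0 0 := by
        by_contra hcon
        push Not at hcon
        obtain ⟨c1, c2, c3, c4⟩ := hcon
        rw [Finsupp.mem_support_iff] at hp
        apply hp
        simp only [Finsupp.add_apply, Finsupp.sub_apply]
        rw [Finsupp.single_eq_of_ne c1, Finsupp.single_eq_of_ne c2, Finsupp.single_eq_of_ne c3,
          Finsupp.single_eq_of_ne c4]
        norm_num
      rcases hp' with rfl | rfl | rfl | rfl
      · exact hin x hx y hy i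
      · exact hin x hx 0 (zero_mem _) i
      · exact hin 0 (zero_mem _) y hy i
      · exact hin 0 (zero_mem _) 0 (zero_mem _) i
    · have e : ∀ w : Z0N W, w.sum (fun _ a => a) =
          Finsupp.liftAddHom (fun _ => AddMonoidHom.id ℤ) w := fun w => rfl
      rw [e, map_add, map_sub, map_sub, Finsupp.liftAddHom_apply_single,
        Finsupp.liftAddHom_apply_single, Finsupp.liftAddHom_apply_single,
        Finsupp.liftAddHom_apply_single]
      simp
    · intro i
      have e : ∀ w : Z0N W, w.sum (fun p a => a • p i) =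
          Finsupp.liftAddHom (fun p => (smulAddHom ℤ (W i).toAffine.Point).flip (p i)) w :=
        fun w => rfl
      rw [e, map_add, map_sub, map_sub, Finsupp.liftAddHom_apply_single,
        Finsupp.liftAddHom_apply_single, Finsupp.liftAddHom_apply_single,
        Finsupp.liftAddHom_apply_single]
      simp only [AddMonoidHom.flip_apply, smulAddHom_apply, one_smul]
      refine Fin.cases ?_ (fun i => ?_) i
      · change x - x - 0 + 0 = 0
        abel
      · refine Fin.cases ?_ (fun i => i.elim0) i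
        change y - 0 - y + 0 = 0
        abel
  have hmain := two_abs hQ
    (fun (a : (W 0).toAffine.Point) (b : (W 1).toAffine.Point) =>
      π (Finsupp.single (pt2 a b) 1)) ?_ ?_ (G (W 0)) (G' (W 0))
    (G (W 1) ⊓ G' (W 1) : AddSubgroup _)
    (fun x hx y hy => hsym G K hG x hx y hy.1) (fun x hx y hy => hsym G' K' hG' x hx y hy.2)
    z.support z (fun p => p 0) (fun p => p 1) (fun p hp => (hz p hp).1) (fun p hp => (hz p hp).2)
    hd (hs 0) (hs 1)
  · rw [← hπ]
    have e : π z = ∑ p ∈ z.support, z p • π (Finsupp.single p (1 : ℤ)) := by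
      conv_lhs => rw [← Finsupp.sum_single z]
      rw [Finsupp.sum, map_sum]
      apply Finset.sum_congr rfl
      intro p _
      rw [← map_zsmul]
      congr 1
      rw [Finsupp.smul_single, smul_eq_mul, mul_one]
    rw [e, ← hmain]
    refine Finset.sum_congr rfl fun p _ => ?_
    simp only [pt2_eta]
  · intro a b y
    have h := (hπ _).2 (TorN.add' (W := W) 0 (hW 0) (pt2 (a + b) y) (pt2 a y)
      (pt2 b y) (pt2 0 y) (by rw [pt2_zero, pt2_zero, pt2_zero])
      (by rw [pt2_zero]) (by
        intro j hj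
        obtain rfl : j = 1 := by omega
        rw [pt2_one, pt2_one, pt2_one, pt2_one]
        exact ⟨rfl, rfl, rfl⟩))
    rw [map_add, map_sub, map_sub] at h
    exact four h
  · intro x a b
    have h := (hπ _).2 (TorN.add' (W := W) 1 (hW 1) (pt2 x (a + b)) (pt2 x a)
      (pt2 x b) (pt2 x 0) (by rw [pt2_one, pt2_one, pt2_one])
      (by rw [pt2_one]) (by
        intro j hj
        obtain rfl : j = 0 := by omega
        rw [pt2_zero, pt2_zero, pt2_zero, pt2_zero]
        exact ⟨rfl, rfl, rfl⟩))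
    rw [map_add, map_sub, map_sub] at h
    exact four h

end Pool.Agent.ZC
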